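import Pool.Agent.H88.B2.Targets2

/-!
Row ALA: the linear programme of case A (MP_ee74d2_an, dimension 3)
-/

set_option autoImplicit false

namespace Pool.Agent.H11.B2.ALA

open Pool.Agent.H83.G Pool.Agent.H88.B2

theorem fn (f : Fin 4 → ℝ) (hf : ∀ i, 0 < f i) : ∃ g : Fin 4 → ℝ, f = fun i => Real.exp (g i) :=
  ⟨fun i => Real.log (f i), funext fun i => (Real.exp_log (hf i)).symm⟩

theorem sc (x : ℝ) (hx : 0 < x) : ∃ g : ℝ, x = Real.exp g :=
  ⟨Real.log x, (Real.exp_log hx).symm⟩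

theorem lp (n h q e A L R a b y m10 m11 m12 m13 m0 m1 m2 m3 t0 t1 t2 t3 : ℝ)
    (hL : 0 ≤ L)
    (E0 : t0 + b + 2 * a + R ≤ L + e) (E1 : t1 + b + 2 * a + R ≤ L + e)
    (E2 : t2 + b + 2 * a + R ≤ L + e) (E3 : t3 + b + 2 * a + R ≤ L + e)
    (hE : e ≤ L + 2 * A + 3 * R) (ha : a ≤ L + A)
    (M1' : m11 ≤ L + m1) (_M2' : m12 ≤ L + m2) (_M3' : m13 ≤ L + m3)
    (Q0 : q + m0 ≤ L + y + t0) (Q1 : q + m1 ≤ L + y + t1) (_Q2 : q + m2 ≤ L + y + t2)
    (_Q3 : q + m3 ≤ L + y + t3) (hP : m0 + m1 + m2 + m3 + 4 * y ≤ L + 3 * q)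
    (hN : n + (m10 + m11 + m12 + m13) ≤ L + q + (m0 + m1 + m2 + m3 + 4 * b))
    (D0 : n + 4 * h ≤ L + m10 + 4 * a + (t0 + b) + 2 * R)
    (D1 : n + 4 * h ≤ L + m11 + 4 * a + (t1 + b) + 2 * R)
    (D2 : n + 4 * h ≤ L + m12 + 4 * a + (t2 + b) + 2 * R)
    (D3 : n + 4 * h ≤ L + m13 + 4 * a + (t3 + b) + 2 * R)
    (hH : n + 8 / 3 * h ≤ L + 1 / 3 * ((2 * a + (t0 + b) + R) + (2 * a + (t1 + b) + R) +
      (2 * a + (t2 + b) + R) + (2 * a + (t3 + b) + R)))
    (hI : n + 4 * m10 ≤ L + R / 2 + m0 + (t0 + b) + 2 * R) :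
    n + 10 / 3 * h ≤ 10 * L - R / 84 + 4 / 3 * A + 4 / 3 * R + e := by
  linarith

theorem pf_ALA : T_ALA := by
  intro N H q E A L R a b y M1 M t i₀ hN hH hq hE hA hL hR ha hb hy hM1 hM ht h1 h2 h3 h4 h5 h6 h7
    h8 h9 h10
  obtain ⟨N, rfl⟩ := sc N hN
  obtain ⟨H, rfl⟩ := sc H hH
  obtain ⟨q, rfl⟩ := sc q hq
  obtain ⟨E, rfl⟩ := sc E hE
  obtain ⟨A, rfl⟩ := sc A hA
  obtain ⟨L, rfl⟩ := sc L (by linarith)
  obtain ⟨R, rfl⟩ := sc R (by linarith)
  obtain ⟨a, rfl⟩ := sc a ha
  obtain ⟨b, rfl⟩ := sc b (by linarith)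
  obtain ⟨y, rfl⟩ := sc y (by linarith)
  obtain ⟨M1, rfl⟩ := fn M1 hM1
  obtain ⟨M, rfl⟩ := fn M hM
  obtain ⟨t, rfl⟩ := fn t ht
  clear hN hH hq hE hA hR ha hb hy hM1 hM ht
  simp only [Fin.prod_univ_four, ← Real.exp_nat_mul, ← Real.exp_mul, ← Real.exp_add,
    Real.exp_le_exp, Nat.cast_ofNat, Real.one_le_exp_iff] at *
  have e0 := h1 0
  have e1 := h1 1
  have e2 := h1 2
  have e3 := h1 3
  have f0 := h4 0
  have f1 := h4 1
  have f2 := h4 2
  have f3 := h4 3
  have g0 := h5 0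
  have g1 := h5 1
  have g2 := h5 2
  have g3 := h5 3
  have k0 := h8 0
  have k1 := h8 1
  have k2 := h8 2
  have k3 := h8 3
  clear h1 h4 h5 h8
  fin_cases i₀
  · have h := lp N H q E A L R a b y (M1 0) (M1 1) (M1 2) (M1 3) (M 0) (M 1) (M 2) (M 3)
      (t 0) (t 1) (t 2) (t 3) hL (by linarith) (by linarith) (by linarith) (by linarith)
      (by linarith) (by linarith) (by linarith) (by linarith) (by linarith) (by linarith)
      (by linarith) (by linarith) (by linarith) (by linarith) (by linarith) (by linarith)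
      (by linarith) (by linarith) (by linarith) (by linarith)
      (by simp only [Fin.zero_eta] at h10; linarith)
    linarith
  · have h := lp N H q E A L R a b y (M1 1) (M1 0) (M1 2) (M1 3) (M 1) (M 0) (M 2) (M 3)
      (t 1) (t 0) (t 2) (t 3) hL (by linarith) (by linarith) (by linarith) (by linarith)
      (by linarith) (by linarith) (by linarith) (by linarith) (by linarith) (by linarith)
      (by linarith) (by linarith) (by linarith) (by linarith) (by linarith) (by linarith)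
      (by linarith) (by linarith) (by linarith) (by linarith)
      (by simp only [Fin.mk_one] at h10; linarith)
    linarith
  · have h := lp N H q E A L R a b y (M1 2) (M1 1) (M1 0) (M1 3) (M 2) (M 1) (M 0) (M 3)
      (t 2) (t 1) (t 0) (t 3) hL (by linarith) (by linarith) (by linarith) (by linarith)
      (by linarith) (by linarith) (by linarith) (by linarith) (by linarith) (by linarith)
      (by linarith) (by linarith) (by linarith) (by linarith) (by linarith) (by linarith)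
      (by linarith) (by linarith) (by linarith) (by linarith)
      (by simp only [Fin.reduceFinMk] at h10; linarith)
    linarith
  · have h := lp N H q E A L R a b y (M1 3) (M1 1) (M1 2) (M1 0) (M 3) (M 1) (M 2) (M 0)
      (t 3) (t 1) (t 2) (t 0) hL (by linarith) (by linarith) (by linarith) (by linarith)
      (by linarith) (by linarith) (by linarith) (by linarith) (by linarith) (by linarith)
      (by linarith) (by linarith) (by linarith) (by linarith) (by linarith) (by linarith)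
      (by linarith) (by linarith) (by linarith) (by linarith)
      (by simp only [Fin.reduceFinMk] at h10; linarith)
    linarith

end Pool.Agent.H11.B2.ALA
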